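import Mathlib

set_option autoImplicit false

namespace Pool.Agent.Lib.MP_1d20a2_co

open Finset Matrix

theorem exists_reps {D : Type*} [Fintype D] (α : D → D) (hα : ∀ d, α (α d) = d)
    (hf : ∀ d, α d ≠ d) : ∃ R : Finset D, (∀ d, d ∈ R ∨ α d ∈ R) ∧
      ∀ (M : Type) [AddCommMonoid M] (f : D → M), ∑ d, f d = ∑ r : R, (f r + f (α r)) := by
  classical
  set e := Fintype.equivFin D
  have hne : ∀ d, e d ≠ e (α d) := fun d h => hf d (e.injective h).symm
  refine ⟨univ.filter fun d => e d < e (α d), fun d => ?_, fun M _ f => ?_⟩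
  · simp only [mem_filter, mem_univ, true_and, hα]
    exact lt_or_gt_of_ne (hne d)
  · rw [sum_coe_sort (univ.filter fun d => e d < e (α d)) (fun r => f r + f (α r)),
      sum_add_distrib, ← sum_filter_add_sum_filter_not univ (fun d => e d < e (α d))]
    congr 1
    apply sum_nbij' α α
    · intro d hd
      simp only [mem_filter, mem_univ, true_and, hα, not_lt] at hd ⊢
      exact lt_of_le_of_ne hd (hne d).symm
    · intro d hd
      simp only [mem_filter, mem_univ, true_and, hα, not_lt] at hd ⊢
      exact hd.le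
    · intro d _; exact hα d
    · intro d _; exact hα d
    · intro d _; rw [hα]

theorem card_le_rank_add_one {R A : Type*} [Fintype R] [Fintype A] (M : Matrix R A (ZMod 2))
    (h : ∀ x : A → ZMod 2, M *ᵥ x = 0 → ∀ u v, x u = x v) :
    Fintype.card A ≤ M.rank + 1 := by
  have h1 := LinearMap.finrank_range_add_finrank_ker M.mulVecLin
  rw [Module.finrank_fintype_fun_eq_card] at h1
  have h2 : LinearMap.ker M.mulVecLin ≤ Submodule.span (ZMod 2) {fun _ => 1} := by
    intro x hx
    rw [Submodule.mem_span_singleton]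
    rcases isEmpty_or_nonempty A with hA | ⟨⟨u⟩⟩
    · exact ⟨0, funext fun u => hA.elim u⟩
    · exact ⟨x u, funext fun v => by simp [h x hx u v]⟩
  have h3 := Submodule.finrank_mono h2
  have h4 : Module.finrank (ZMod 2) (Submodule.span (ZMod 2) {fun _ : A => (1 : ZMod 2)}) ≤ 1 := by
    simpa using finrank_span_le_card (R := ZMod 2) ({fun _ => 1} : Set (A → ZMod 2))
  unfold Matrix.rank
  omega

/-- Planar duality over the field with two elements. -/
theorem duality {D A B : Type*} [Fintype D] [Fintype A] [Fintype B] (α : D → D)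
    (hα : ∀ d, α (α d) = d) (hf : ∀ d, α d ≠ d) (a : D → A) (b : D → B)
    (orth : ∀ (x : A → ZMod 2) (y : B → ZMod 2),
      ∑ d, (y (b d) + y (b (α d))) * x (a d) = 0)
    (ka : ∀ x : A → ZMod 2, (∀ d, x (a d) = x (a (α d))) → ∀ u v, x u = x v)
    (kb : ∀ y : B → ZMod 2, (∀ d, y (b d) = y (b (α d))) → ∀ u v, y u = y v)
    (hcard : Fintype.card D + 4 ≤ 2 * (Fintype.card A + Fintype.card B))
    (z : D → ZMod 2) (hz : ∀ d, z (α d) = z d)
    (hzx : ∀ x : A → ZMod 2, ∑ d, z d * x (a d) = 0) :
    ∃ y : B → ZMod 2, ∀ d, z d = y (b d) + y (b (α d)) := by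
  classical
  obtain ⟨R, hR, hsum⟩ := exists_reps α hα hf
  have hcR : Fintype.card D = 2 * Fintype.card R := by
    have := hsum ℕ (fun _ => 1)
    simp at this
    simp [this, mul_comm]
  set M1 : Matrix R A (ZMod 2) :=
    fun r u => (if a r = u then 1 else 0) + (if a (α r) = u then 1 else 0) with hM1
  set M2 : Matrix R B (ZMod 2) :=
    fun r u => (if b r = u then 1 else 0) + (if b (α r) = u then 1 else 0) with hM2
  have e1 : ∀ x r, (M1 *ᵥ x) r = x (a r) + x (a (α r)) := by
    intro x r
    simp [hM1, mulVec, dotProduct, add_mul, sum_add_distrib]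
  have e2 : ∀ y r, (M2 *ᵥ y) r = y (b r) + y (b (α r)) := by
    intro y r
    simp [hM2, mulVec, dotProduct, add_mul, sum_add_distrib]
  have two : ∀ s t : ZMod 2, s + t = 0 → s = t := by decide
  have r1 : Fintype.card A ≤ M1.rank + 1 := card_le_rank_add_one M1 fun x hx => ka x fun d => by
    rcases hR d with h | h
    · exact two _ _ ((e1 x ⟨d, h⟩).symm.trans (congrFun hx _))
    · have := two _ _ ((e1 x ⟨α d, h⟩).symm.trans (congrFun hx _))
      simp only [hα] at this
      exact this.symm
  have r2 : Fintype.card B ≤ M2.rank + 1 := card_le_rank_add_one M2 fun y hy => kb y fun d => by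
    rcases hR d with h | h
    · exact two _ _ ((e2 y ⟨d, h⟩).symm.trans (congrFun hy _))
    · have := two _ _ ((e2 y ⟨α d, h⟩).symm.trans (congrFun hy _))
      simp only [hα] at this
      exact this.symm
  have mem : ∀ w : D → ZMod 2, (∀ d, w (α d) = w d) →
      (∀ x : A → ZMod 2, ∑ d, w d * x (a d) = 0) →
      (fun r : R => w r) ∈ LinearMap.ker M1ᵀ.mulVecLin := by
    intro w hw hwx
    rw [LinearMap.mem_ker, mulVecLin_apply]
    funext u
    have := hwx (Pi.single u 1)
    rw [hsum] at this
    rw [Pi.zero_apply, ← this]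
    simp only [mulVec, dotProduct, transpose_apply, hM1, hw, Pi.single_apply]
    apply sum_congr rfl
    intro r _
    ring
  have hle : LinearMap.range M2.mulVecLin ≤ LinearMap.ker M1ᵀ.mulVecLin := by
    rintro _ ⟨y, rfl⟩
    have := mem (fun d => y (b d) + y (b (α d))) (fun d => by simp only [hα]; ring)
      (fun x => orth x y)
    convert this using 1
    funext r
    exact e2 y r
  have h1 := LinearMap.finrank_range_add_finrank_ker M1ᵀ.mulVecLin
  rw [Module.finrank_fintype_fun_eq_card] at h1
  have h2 : M1ᵀ.rank = M1.rank := rank_transpose M1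
  have heq := Submodule.eq_of_le_of_finrank_le hle (by
    unfold Matrix.rank at h2 r1 r2
    omega)
  have hm := mem z hz hzx
  rw [← heq] at hm
  obtain ⟨y, hy⟩ := hm
  refine ⟨y, fun d => ?_⟩
  rcases hR d with h | h
  · exact ((e2 y ⟨d, h⟩).symm.trans (congrFun hy _)).symm
  · have := (e2 y ⟨α d, h⟩).symm.trans (congrFun hy _)
    simp only [hα, hz] at this
    rw [← this, add_comm]

end Pool.Agent.Lib.MP_1d20a2_co
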