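import Mathlib

set_option autoImplicit false

namespace Pool.Agent.Lib.MP_1d20a2_co

open Finset

variable {V : Type*} [Fintype V] (G : SimpleGraph V)

open Classical in
/-- Vertices outside `C` with a neighbour in `C`. -/
noncomputable def leaves (C : Finset V) : Finset V :=
  univ.filter fun v => v ∉ C ∧ ∃ c ∈ C, G.Adj c v

open Classical in
/-- Vertices outside `C` with no neighbour in `C`. -/
noncomputable def outer (C : Finset V) : Finset V :=
  univ.filter fun v => v ∉ C ∧ ∀ c ∈ C, ¬ G.Adj c v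

open Classical in
/-- Leaves with no neighbour in the outer part. -/
noncomputable def dead (C : Finset V) : Finset V :=
  (leaves G C).filter fun v => ∀ t ∈ outer G C, ¬ G.Adj v t

/-- The potential. -/
noncomputable def pot (C : Finset V) : ℕ := (leaves G C).card + (dead G C).card

theorem mem_leaves {C : Finset V} {v : V} : v ∈ leaves G C ↔ v ∉ C ∧ ∃ c ∈ C, G.Adj c v := by
  simp [leaves]

theorem mem_outer {C : Finset V} {v : V} : v ∈ outer G C ↔ v ∉ C ∧ ∀ c ∈ C, ¬ G.Adj c v := by
  simp [outer]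

theorem mem_dead {C : Finset V} {v : V} :
    v ∈ dead G C ↔ v ∈ leaves G C ∧ ∀ t ∈ outer G C, ¬ G.Adj v t := by
  simp [dead]

theorem tri (C : Finset V) (v : V) : v ∈ C ∨ v ∈ leaves G C ∨ v ∈ outer G C := by
  rw [mem_leaves, mem_outer]
  by_cases h : v ∈ C
  · exact Or.inl h
  by_cases h' : ∃ c ∈ C, G.Adj c v
  · exact Or.inr (Or.inl ⟨h, h'⟩)
  · push Not at h'
    exact Or.inr (Or.inr ⟨h, h'⟩)

variable [DecidableEq V]

theorem mem_outer_insert {C : Finset V} {v t : V} (hv : v ∈ leaves G C) :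
    t ∈ outer G (insert v C) ↔ t ∈ outer G C ∧ ¬ G.Adj v t := by
  rw [mem_leaves] at hv
  simp only [mem_outer, mem_insert, not_or, forall_eq_or_imp]
  constructor
  · rintro ⟨⟨_, b⟩, c, d⟩
    exact ⟨⟨b, d⟩, c⟩
  · rintro ⟨⟨b, d⟩, c⟩
    refine ⟨⟨?_, b⟩, c, d⟩
    rintro rfl
    obtain ⟨x, hx, hx'⟩ := hv.2
    exact d x hx hx'

theorem mem_leaves_insert {C : Finset V} {v t : V} (hv : v ∈ leaves G C) :
    t ∈ leaves G (insert v C) ↔ (t ∈ leaves G C ∧ t ≠ v) ∨ (t ∈ outer G C ∧ G.Adj v t) := by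
  constructor
  · intro h
    rw [mem_leaves] at h
    obtain ⟨a, c, hc, hc'⟩ := h
    rw [mem_insert, not_or] at a
    rcases tri G C t with h | h | h
    · exact absurd h a.2
    · exact Or.inl ⟨h, a.1⟩
    · rcases mem_insert.mp hc with rfl | hc
      · exact Or.inr ⟨h, hc'⟩
      · exact absurd hc' (((mem_outer G).mp h).2 c hc)
  · rintro (⟨h, h'⟩ | ⟨h, h'⟩)
    · rw [mem_leaves] at h ⊢
      obtain ⟨a, c, hc, hc'⟩ := h
      exact ⟨by simp [a, h'], c, mem_insert_of_mem hc, hc'⟩
    · rw [mem_leaves]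
      rw [mem_outer] at h
      exact ⟨by simp [h.1, h'.ne'], v, mem_insert_self _ _, h'⟩

omit [DecidableEq V] in
theorem not_leaves_of_outer {C : Finset V} {t : V} (h : t ∈ outer G C) : t ∉ leaves G C := by
  rw [mem_outer] at h
  rw [mem_leaves]
  rintro ⟨_, c, hc, hc'⟩
  exact h.2 c hc hc'

theorem dead_subset {C : Finset V} {v w : V} (hv : v ∈ leaves G C) (hw : w ∈ outer G C)
    (hvw : G.Adj v w) : dead G C ⊆ dead G (insert v C) := by
  intro t ht
  rw [mem_dead] at ht ⊢
  refine ⟨(mem_leaves_insert G hv).mpr (Or.inl ⟨ht.1, ?_⟩), fun s hs => ?_⟩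
  · rintro rfl
    exact ht.2 w hw hvw
  · exact ht.2 s ((mem_outer_insert G hv).mp hs).1

theorem leaves_card_le {C : Finset V} {v w : V} (hv : v ∈ leaves G C) (hw : w ∈ outer G C)
    (hvw : G.Adj v w) : insert w ((leaves G C).erase v) ⊆ leaves G (insert v C) ∧
      (insert w ((leaves G C).erase v)).card = (leaves G C).card := by
  constructor
  · intro t ht
    rw [mem_leaves_insert G hv]
    rcases mem_insert.mp ht with rfl | ht
    · exact Or.inr ⟨hw, hvw⟩
    · exact Or.inl ⟨(mem_erase.mp ht).2, (mem_erase.mp ht).1⟩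
  · rw [card_insert_of_notMem (fun h => not_leaves_of_outer G hw (mem_erase.mp h).2),
      card_erase_add_one hv]

theorem pot_le {C : Finset V} {v w : V} (hv : v ∈ leaves G C) (hw : w ∈ outer G C)
    (hvw : G.Adj v w) : pot G C ≤ pot G (insert v C) := by
  obtain ⟨a, b⟩ := leaves_card_le G hv hw hvw
  have := card_le_card a
  have := card_le_card (dead_subset G hv hw hvw)
  unfold pot
  omega

theorem pot_lt_two {C : Finset V} {v w w' : V} (hv : v ∈ leaves G C) (hw : w ∈ outer G C)
    (hvw : G.Adj v w) (hw' : w' ∈ outer G C) (hvw' : G.Adj v w') (hne : w' ≠ w) :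
    pot G C < pot G (insert v C) := by
  obtain ⟨a, b⟩ := leaves_card_le G hv hw hvw
  have h1 : (insert w ((leaves G C).erase v)).card < (leaves G (insert v C)).card := by
    apply card_lt_card
    rw [ssubset_iff_of_subset a]
    refine ⟨w', (mem_leaves_insert G hv).mpr (Or.inr ⟨hw', hvw'⟩), fun h => ?_⟩
    rcases mem_insert.mp h with h | h
    · exact hne h
    · exact not_leaves_of_outer G hw' (mem_erase.mp h).2
  have := card_le_card (dead_subset G hv hw hvw)
  unfold pot
  omega

theorem pot_lt_dead {C : Finset V} {v w u : V} (hv : v ∈ leaves G C) (hw : w ∈ outer G C)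
    (hvw : G.Adj v w) (hu : u ∈ dead G (insert v C)) (hu' : u ∉ dead G C) :
    pot G C < pot G (insert v C) := by
  obtain ⟨a, b⟩ := leaves_card_le G hv hw hvw
  have := card_le_card a
  have h1 : (dead G C).card < (dead G (insert v C)).card := by
    apply card_lt_card
    rw [ssubset_iff_of_subset (dead_subset G hv hw hvw)]
    exact ⟨u, hu, hu'⟩
  unfold pot
  omega

/-- All vertices of `T` can be reached from `r` inside `T`. -/
def ConnOn (T : Set V) (r : V) : Prop :=
  r ∈ T ∧ ∀ t ∈ T, Relation.ReflTransGen (fun a b => G.Adj a b ∧ a ∈ T ∧ b ∈ T) r t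

omit [Fintype V] [DecidableEq V] in
theorem ConnOn.extend {C T : Set V} {r : V} (h : ConnOn G C r) (hCT : C ⊆ T)
    (hT : ∀ t ∈ T, t ∈ C ∨ ∃ c ∈ C, G.Adj c t) : ConnOn G T r := by
  have m : ∀ t ∈ C, Relation.ReflTransGen (fun a b => G.Adj a b ∧ a ∈ T ∧ b ∈ T) r t :=
    fun t ht => Relation.ReflTransGen.mono
      (fun a b hab => ⟨hab.1, hCT hab.2.1, hCT hab.2.2⟩) _ _ (h.2 t ht)
  refine ⟨hCT h.1, fun t ht => ?_⟩
  rcases hT t ht with h' | ⟨c, hc, hc'⟩
  · exact m t h'
  · exact (m c hc).tail ⟨hc', hCT hc, ht⟩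

omit [Fintype V] [DecidableEq V] in
theorem ConnOn.connected {T : Set V} {r : V} (h : ConnOn G T r) : (G.induce T).Connected := by
  have key : ∀ t, Relation.ReflTransGen (fun a b => G.Adj a b ∧ a ∈ T ∧ b ∈ T) r t →
      ∀ ht : t ∈ T, (G.induce T).Reachable ⟨r, h.1⟩ ⟨t, ht⟩ := by
    intro t ht
    induction ht with
    | refl => intro _; rfl
    | tail _ hab ih =>
      intro ht
      exact (ih hab.2.1).trans (SimpleGraph.Adj.reachable (by simpa using hab.1))
  have : Nonempty T := ⟨⟨r, h.1⟩⟩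
  exact ⟨fun a b => (key a (h.2 a a.2) a.2).symm.trans (key b (h.2 b b.2) b.2)⟩

theorem ConnOn.insert_leaf {C : Finset V} {r v : V} (h : ConnOn G C r) (hv : v ∈ leaves G C) :
    ConnOn G (insert v C : Finset V) r := by
  refine h.extend G (by simp) fun t ht => ?_
  rcases mem_insert.mp (mem_coe.mp ht) with rfl | ht
  · exact Or.inr ((mem_leaves G).mp hv).2
  · exact Or.inl ht

omit [DecidableEq V] in
theorem exists_alive (hG : G.Preconnected) {C : Finset V} {r t : V} (hr : r ∈ C)
    (ht : t ∈ outer G C) : ∃ v ∈ leaves G C, ∃ w ∈ outer G C, G.Adj v w := by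
  by_contra hn
  push Not at hn
  have key : ∀ s, Relation.ReflTransGen G.Adj r s → s ∉ outer G C := by
    intro s hs
    induction hs with
    | refl => exact fun h => ((mem_outer G).mp h).1 hr
    | @tail a b _ hab ih =>
      intro hb
      rcases tri G C a with h | h | h
      · exact ((mem_outer G).mp hb).2 a h hab
      · exact hn a h b hb hab
      · exact ih h
  exact key t ((G.reachable_iff_reflTransGen r t).mp (hG r t)) ht

/-- Every edge lies on a four-cycle or has an end with a pendant neighbour. -/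
def Quad : Prop :=
  ∀ f g, G.Adj f g → (∃ h k, G.Adj g h ∧ G.Adj h k ∧ G.Adj k f ∧ h ≠ f ∧ k ≠ g) ∨
    (∃ m, G.Adj m f ∧ ∀ t, G.Adj m t → t = f) ∨ (∃ m, G.Adj m g ∧ ∀ t, G.Adj m t → t = g)

theorem outer_insert_lt {C : Finset V} {v w : V} (hv : v ∈ leaves G C) (hw : w ∈ outer G C)
    (hvw : G.Adj v w) : (outer G (insert v C)).card < (outer G C).card := by
  apply card_lt_card
  rw [ssubset_iff_of_subset fun t ht => ((mem_outer_insert G hv).mp ht).1]
  exact ⟨w, hw, fun h => ((mem_outer_insert G hv).mp h).2 hvw⟩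

theorem grow (hQ : Quad G) {C : Finset V} {r v0 v1 : V} (hC : ConnOn G C r)
    (h0 : v0 ∈ leaves G C) (h1 : v1 ∈ outer G C) (a01 : G.Adj v0 v1) :
    ∃ C' : Finset V, ConnOn G C' r ∧ (outer G C').card < (outer G C).card ∧
      C'.card + 3 * pot G C ≤ C.card + 3 * pot G C' := by
  by_cases hg : ∃ v ∈ leaves G C, ∃ w ∈ outer G C, G.Adj v w ∧ pot G C < pot G (insert v C)
  · obtain ⟨v, hv, w, hw, hvw, hp⟩ := hg
    have := card_insert_le v C
    exact ⟨insert v C, hC.insert_leaf G hv, outer_insert_lt G hv hw hvw, by omega⟩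
  push Not at hg
  have uniq : ∀ v ∈ leaves G C, ∀ w ∈ outer G C, G.Adj v w → ∀ w' ∈ outer G C, G.Adj v w' →
      w' = w := by
    intro v hv w hw hvw w' hw' hvw'
    by_contra hne
    exact absurd (pot_lt_two G hv hw hvw hw' hvw' hne) (not_lt.mpr (hg v hv w hw hvw))
  have alive : ∀ {D : Finset V} {v w : V}, v ∈ leaves G D → w ∈ outer G D → G.Adj v w →
      ¬ pot G D < pot G (insert v D) → ∃ t ∈ outer G (insert v D), G.Adj w t := by
    intro D v w hv hw hvw hp
    by_contra hn
    push Not at hn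
    exact hp (pot_lt_dead G hv hw hvw
      ((mem_dead G).mpr ⟨(mem_leaves_insert G hv).mpr (Or.inr ⟨hw, hvw⟩), hn⟩)
      (fun h => not_leaves_of_outer G hw ((mem_dead G).mp h).1))
  have n0 : ¬ pot G C < pot G (insert v0 C) := not_lt.mpr (hg v0 h0 v1 h1 a01)
  have l1 : v1 ∈ leaves G (insert v0 C) := (mem_leaves_insert G h0).mpr (Or.inr ⟨h1, a01⟩)
  obtain ⟨v2, h2, a12⟩ := alive h0 h1 a01 n0
  have c1 := hC.insert_leaf G h0
  have o1 := outer_insert_lt G h0 h1 a01
  have p1 := pot_le G h0 h1 a01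
  have k1 := card_insert_le v0 C
  have c2 := c1.insert_leaf G l1
  have o2 := outer_insert_lt G l1 h2 a12
  have p2 := pot_le G l1 h2 a12
  have k2 := card_insert_le v1 (insert v0 C)
  by_cases n1 : pot G (insert v0 C) < pot G (insert v1 (insert v0 C))
  · exact ⟨_, c2, by omega, by omega⟩
  have l2 : v2 ∈ leaves G (insert v1 (insert v0 C)) :=
    (mem_leaves_insert G l1).mpr (Or.inr ⟨h2, a12⟩)
  obtain ⟨v3, h3, a23⟩ := alive l1 h2 a12 n1
  have c3 := c2.insert_leaf G l2
  have o3 := outer_insert_lt G l2 h3 a23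
  have k3 := card_insert_le v2 (insert v1 (insert v0 C))
  by_cases n2 : pot G (insert v1 (insert v0 C)) < pot G (insert v2 (insert v1 (insert v0 C)))
  · exact ⟨_, c3, by omega, by omega⟩
  obtain ⟨v4, h4, a34⟩ := alive l2 h3 a23 n2
  exfalso
  have h2' := (mem_outer_insert G h0).mp h2
  have h3' := (mem_outer_insert G l1).mp h3
  have h3'' := (mem_outer_insert G h0).mp h3'.1
  have N1 : ∀ t, G.Adj v1 t → t = v0 ∨ t = v2 := by
    intro t ht
    rcases tri G C t with h | h | h
    · exact absurd ht.symm (((mem_outer G).mp h1).2 t h)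
    · left
      by_contra hne
      apply n0
      refine pot_lt_dead G h0 h1 a01 (u := t) ((mem_dead G).mpr
        ⟨(mem_leaves_insert G h0).mpr (Or.inl ⟨h, hne⟩), fun s hs hts => ?_⟩)
        (fun hd => ((mem_dead G).mp hd).2 v1 h1 ht.symm)
      have hs' := (mem_outer_insert G h0).mp hs
      rw [uniq t h v1 h1 ht.symm s hs'.1 hts] at hs'
      exact hs'.2 a01
    · right
      by_contra hne
      apply n1
      refine pot_lt_two G l1 h2 a12 ((mem_outer_insert G h0).mpr ⟨h, fun h' => ?_⟩) ht hne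
      rw [uniq v0 h0 v1 h1 a01 t h h'] at ht
      exact ht.ne rfl
  have N2 : ∀ t, G.Adj v2 t → t = v1 ∨ t = v3 := by
    intro t ht
    rcases tri G (insert v0 C) t with h | h | h
    · exact absurd ht.symm (((mem_outer G).mp h2).2 t h)
    · left
      by_contra hne
      rcases (mem_leaves_insert G h0).mp h with h' | h'
      · apply n1
        refine pot_lt_dead G l1 h2 a12 (u := t) ((mem_dead G).mpr
          ⟨(mem_leaves_insert G l1).mpr (Or.inl ⟨h, hne⟩), fun s hs hts => ?_⟩)
          (fun hd => ((mem_dead G).mp hd).2 v2 h2 ht.symm)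
        have hs' := (mem_outer_insert G l1).mp hs
        have hs'' := (mem_outer_insert G h0).mp hs'.1
        rw [uniq t h'.1 v2 h2'.1 ht.symm s hs''.1 hts] at hs'
        exact hs'.2 a12
      · exact hne (uniq v0 h0 v1 h1 a01 t h'.1 h'.2)
    · right
      by_contra hne
      apply n2
      refine pot_lt_two G l2 h3 a23 ((mem_outer_insert G l1).mpr ⟨h, fun h' => ?_⟩) ht hne
      rcases N1 t h' with e | e
      · rw [e] at h
        exact ((mem_outer G).mp h).1 (mem_insert_self _ _)
      · rw [e] at ht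
        exact ht.ne rfl
  obtain ⟨c, hc, hc0⟩ := ((mem_leaves G).mp h0).2
  have n13 : v3 ≠ v1 := by
    rintro rfl
    exact ((mem_outer G).mp h3).1 (mem_insert_self _ _)
  have n02 : v0 ≠ v2 := by
    rintro rfl
    exact ((mem_outer G).mp h2).1 (mem_insert_self _ _)
  rcases hQ v1 v2 a12 with ⟨h, k, b1, b2, b3, b4, b5⟩ | ⟨m, b1, b2⟩ | ⟨m, b1, b2⟩
  · have e1 : h = v3 := (N2 h b1).resolve_left b4
    have e2 : k = v0 := (N1 k b3.symm).resolve_right b5
    rw [e1, e2] at b2
    exact h3''.2 b2.symm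
  · rcases N1 m b1.symm with rfl | rfl
    · have := b2 c hc0.symm
      rw [this] at hc
      exact ((mem_outer G).mp h1).1 hc
    · exact n13 (b2 v3 a23)
  · rcases N2 m b1.symm with rfl | rfl
    · exact n02 (b2 v0 a01.symm)
    · have := b2 v4 a34
      rw [this] at h4
      exact ((mem_outer G).mp h4).1 (mem_insert_self _ _)

theorem exists_dominating (hG : G.Preconnected) (hQ : Quad G) (r : V) :
    ∃ C : Finset V, ConnOn G C r ∧ outer G C = ∅ ∧ C.card ≤ 3 * pot G C + 1 := by
  have key : ∀ (k : ℕ) (C : Finset V), (outer G C).card ≤ k → ConnOn G C r →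
      C.card ≤ 3 * pot G C + 1 →
      ∃ C : Finset V, ConnOn G C r ∧ outer G C = ∅ ∧ C.card ≤ 3 * pot G C + 1 := by
    intro k
    induction k with
    | zero =>
      intro C h1 h2 h3
      exact ⟨C, h2, card_eq_zero.mp (by omega), h3⟩
    | succ k ih =>
      intro C h1 h2 h3
      rcases (outer G C).eq_empty_or_nonempty with h | ⟨t, ht⟩
      · exact ⟨C, h2, h, h3⟩
      · obtain ⟨v, hv, w, hw, hvw⟩ := exists_alive G hG (mem_coe.mp h2.1) ht
        obtain ⟨C', a, b, c⟩ := grow G hQ h2 hv hw hvw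
        exact ih C' (by omega) a (by omega)
  refine key _ {r} le_rfl ⟨by simp, fun t ht => ?_⟩ (by simp)
  have : t = r := by simpa using ht
  rw [this]

/-- A connected two-coloured graph with the four-cycle property has a large monochromatic set
whose removal leaves it connected. -/
theorem exists_nonsep (hG : G.Connected) (hQ : Quad G) (y : V → ZMod 2) :
    ∃ (S : Finset V) (c : ZMod 2), (∀ s ∈ S, y s = c) ∧ (G.induce (↑S)ᶜ).Connected ∧
      Fintype.card V ≤ 14 * S.card + 1 := by
  obtain ⟨r⟩ := hG.nonempty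
  obtain ⟨C, h1, h2, h3⟩ := exists_dominating G hG.preconnected hQ r
  have hd : (dead G C).card ≤ (leaves G C).card :=
    card_le_card fun t ht => ((mem_dead G).mp ht).1
  have hcard : Fintype.card V ≤ C.card + (leaves G C).card := by
    refine le_trans (card_le_card (show univ ⊆ C ∪ leaves G C from fun t _ => ?_))
      (card_union_le _ _)
    rcases tri G C t with h | h | h
    · exact mem_union_left _ h
    · exact mem_union_right _ h
    · rw [h2] at h; simp at h
  have conn : ∀ S ⊆ leaves G C, (G.induce (↑S)ᶜ).Connected := by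
    intro S hS
    refine (h1.extend G (T := (↑S)ᶜ) (fun t ht hs => ?_) fun t _ => ?_).connected G
    · exact ((mem_leaves G).mp (hS hs)).1 ht
    · rcases tri G C t with h | h | h
      · exact Or.inl h
      · exact Or.inr ((mem_leaves G).mp h).2
      · rw [h2] at h; simp at h
  have hsplit := card_filter_add_card_filter_not (s := leaves G C) (fun t => y t = 0)
  unfold pot at h3
  rcases le_total ((leaves G C).filter fun t => y t = 0).card
    ((leaves G C).filter fun t => ¬ y t = 0).card with h | h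
  · refine ⟨_, 1, fun s hs => ?_, conn _ (filter_subset (fun t => ¬ y t = 0) _), by omega⟩
    have := (mem_filter.mp hs).2
    revert this
    generalize y s = a
    decide +revert
  · exact ⟨_, 0, fun s hs => (mem_filter.mp hs).2,
      conn _ (filter_subset (fun t => y t = 0) _), by omega⟩

end Pool.Agent.Lib.MP_1d20a2_co
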